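import Pool.Agent.Helper20.PS.KState
import Pool.Agent.Helper28.TP.EngSound
import Pool.Agent.Helper82.FL.Corn

/-!
# The root task of the kappa form
-/

set_option autoImplicit false

namespace Pool.Agent.Helper1.TK

open Matrix Finset
open Pool.Agent.Helper20.PS (KF sellM)
open Pool.Agent.Helper28.TP (Geo Ivl InBox nth)
open Pool.Agent.Helper82.FL (V mkV okV formV formS)

/-- the five corners of the wall: `p02, p03, p12, p13, p23` -/
def wallC : List V :=
  [mkV 0 1 0 0 0 0 1, mkV 0 0 1 0 0 0 1, mkV 0 0 0 1 0 0 1, mkV 0 0 0 0 1 0 1, mkV 0 0 0 0 0 1 1]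

theorem okC0 : okV (mkV 0 1 0 0 0 0 1) := ⟨rfl, by decide, by decide⟩
theorem okC1 : okV (mkV 0 0 1 0 0 0 1) := ⟨rfl, by decide, by decide⟩
theorem okC2 : okV (mkV 0 0 0 1 0 0 1) := ⟨rfl, by decide, by decide⟩
theorem okC3 : okV (mkV 0 0 0 0 1 0 1) := ⟨rfl, by decide, by decide⟩
theorem okC4 : okV (mkV 0 0 0 0 0 1 1) := ⟨rfl, by decide, by decide⟩

theorem ok_wallC : ∀ v ∈ wallC, okV v := by
  intro v hv
  simp only [wallC, List.mem_cons, List.not_mem_nil, or_false] at hv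
  rcases hv with h | h | h | h | h <;> rw [h]
  · exact okC0
  · exact okC1
  · exact okC2
  · exact okC3
  · exact okC4

theorem form_mkV (p0 p1 p2 p3 p4 p5 s : ℕ) :
    formV (mkV p0 p1 p2 p3 p4 p5 s) = (Pool.Agent.Helper28.TT.ofP p0 p1 p2 p3 p4 p5).toM := by
  obtain ⟨f0, f1, f2, f3, f4, f5, fs, fl⟩ := Pool.Agent.Helper82.FL.mkV_fields p0 p1 p2 p3 p4 p5 s
  unfold formV formS
  rw [f0, f1, f2, f3, f4, f5]

/-- the box of the root -/
def box0 : List Ivl := [⟨0, 65536⟩, ⟨0, 65536⟩, ⟨0, 65536⟩, ⟨0, 65536⟩]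

/-- the parameters -/
def par (d : Fin 3 → ℝ) (h : ℝ) : ℕ → ℝ
  | 0 => d 0
  | 1 => d 1
  | 2 => d 2
  | _ => h

theorem inBox_root {d : Fin 3 → ℝ} {h : ℝ} (d0 : ∀ i, 0 ≤ d i) (d1 : ∀ i, d i ≤ 1) (h0 : 0 ≤ h) (h1 : h ≤ 1) :
    InBox (par d h) box0 := by
  have key : ∀ i, 0 ≤ par d h i ∧ par d h i ≤ 1 := by
    intro i
    match i with
    | 0 => exact ⟨d0 0, d1 0⟩
    | 1 => exact ⟨d0 1, d1 1⟩
    | 2 => exact ⟨d0 2, d1 2⟩
    | (n + 3) => exact ⟨h0, h1⟩
  have hb : ∀ (i : ℕ) (v : Ivl), nth box0 i = some v → v = ⟨0, 65536⟩ := by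
    intro i v hv
    match i with
    | 0 => exact (Option.some.inj hv).symm
    | 1 => exact (Option.some.inj hv).symm
    | 2 => exact (Option.some.inj hv).symm
    | 3 => exact (Option.some.inj hv).symm
    | (n + 4) => exact absurd hv (by simp [box0, nth])
  intro i v hv
  rw [hb i v hv]
  obtain ⟨h2, h3⟩ := key i
  constructor
  · simpa using h2
  · rw [show ((65536 : ℕ) : ℝ) / 65536 = 1 by norm_num]
    exact h3

/-- the form is in the cone of the corners -/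
theorem cone_root {I : Type} (g : Geo V I) (hform : ∀ v ∈ wallC, g.form v = formV v) {p : Fin 5 → ℝ}
    (hp : ∀ i, 0 ≤ p i) (hQ : g.Q = sellM p) :
    ∃ lam : ℕ → ℝ, (∀ k, 0 ≤ lam k) ∧ g.Q = ∑ k ∈ range wallC.length, lam k • g.At wallC k := by
  refine ⟨fun k => if hk : k < 5 then p ⟨k, hk⟩ else 0, ?_, ?_⟩
  · intro k
    simp only
    split
    · exact hp _
    · exact le_rfl
  · rw [hQ]
    have hlen : wallC.length = 5 := rfl
    have a0 : g.At wallC 0 = formV (mkV 0 1 0 0 0 0 1) := hform _ (by simp [wallC])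
    have a1 : g.At wallC 1 = formV (mkV 0 0 1 0 0 0 1) := hform _ (by simp [wallC])
    have a2 : g.At wallC 2 = formV (mkV 0 0 0 1 0 0 1) := hform _ (by simp [wallC])
    have a3 : g.At wallC 3 = formV (mkV 0 0 0 0 1 0 1) := hform _ (by simp [wallC])
    have a4 : g.At wallC 4 = formV (mkV 0 0 0 0 0 1 1) := hform _ (by simp [wallC])
    rw [hlen, Finset.sum_range_succ, Finset.sum_range_succ, Finset.sum_range_succ, Finset.sum_range_succ,
      Finset.sum_range_one, a0, a1, a2, a3, a4]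
    simp only [form_mkV]
    have e0 : (fun k => if hk : k < 5 then p ⟨k, hk⟩ else 0) 0 = p 0 := rfl
    have e1 : (fun k => if hk : k < 5 then p ⟨k, hk⟩ else 0) 1 = p 1 := rfl
    have e2 : (fun k => if hk : k < 5 then p ⟨k, hk⟩ else 0) 2 = p 2 := rfl
    have e3 : (fun k => if hk : k < 5 then p ⟨k, hk⟩ else 0) 3 = p 3 := rfl
    have e4 : (fun k => if hk : k < 5 then p ⟨k, hk⟩ else 0) 4 = p 4 := rfl
    simp only [e0, e1, e2, e3, e4]
    unfold sellM Pool.Agent.Helper28.TT.ofP Pool.Agent.Helper28.TT.S3.toM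
    ext i j
    fin_cases i <;> fin_cases j <;> simp <;> ring

/-- **The root task holds** in every state -/
theorem holds_root {I : Type} (g : Geo V I) (hok : ∀ v ∈ wallC, g.ok v) (hform : ∀ v ∈ wallC, g.form v = formV v)
    {W : ℝ} {l : Fin 6 → Fin 5} {F Z : Matrix (Fin 3) (Fin 3) ℝ} {S : ℝ} {p : Fin 5 → ℝ} {cls : Fin 3 → Bool}
    {d c s : Fin 3 → ℝ} {h : ℝ} {L : (Fin 3 → ℤ) → Fin 5} (hK : KF W l F Z S p cls d c s h L)
    (hQ : g.Q = Fᵀ * F) (hc : g.c = par d h) (env : List I) (henv : ∀ i ∈ env, g.holds i) :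
    (⟨wallC, env, box0⟩ : Pool.Agent.Helper28.TP.Task V I).holds g := by
  refine ⟨hok, cone_root g hform hK.p0 (hQ.trans hK.gram), henv, ?_⟩
  rw [hc]
  exact inBox_root hK.ks.d0 (fun i => (hK.ks.d1 i).le) hK.ks.h0 hK.ks.h1

end Pool.Agent.Helper1.TK
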