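import Pool.Agent.Helper20.PS.KState
import Pool.Agent.Helper80.TK.Vert

/-!
# The label tags of the root, and the state with the rational constant
-/

set_option autoImplicit false

namespace Pool.Agent.Helper1.TK

open Matrix
open Pool.Agent.Helper20.PS (KF)
open Pool.Agent.Helper1.FIVE (oc)

/-- the point of a code -/
def zp (c : ℕ) : Fin 3 → ℤ :=
  ![((c % 16 : ℕ) : ℤ) - 8, ((c / 16 % 16 : ℕ) : ℤ) - 8, ((c / 256 % 16 : ℕ) : ℤ) - 8]

/-- the codes of the six points -/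
def ocd : Fin 6 → ℕ := ![2184, 2185, 2201, 2200, 1928, 2457]

theorem zp_ocd (k : Fin 6) : zp (ocd k) = oc k := by
  fin_cases k <;> decide

/-- the label tag of a point -/
def ltag (lab c : ℕ) : ℕ := 2 * (lab + 8 * c)

theorem ltag_lab {lab : ℕ} (hl : lab < 8) (c : ℕ) : ltag lab c / 2 % 8 = lab := by
  unfold ltag
  omega

theorem ltag_code {lab : ℕ} (hl : lab < 8) (c : ℕ) : ltag lab c / 16 = c := by
  unfold ltag
  omega

/-- the six tags of the root, index `k` is the tag of the point `k` -/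
def rootTags (l : Fin 6 → Fin 5) : List ℕ :=
  [ltag (l 0).val 2184, ltag (l 1).val 2185, ltag (l 2).val 2201, ltag (l 3).val 2200, ltag (l 4).val 1928,
    ltag (l 5).val 2457]

theorem mem_rootTags {l : Fin 6 → Fin 5} {n : ℕ} (h : n ∈ rootTags l) : ∃ k : Fin 6, n = ltag (l k).val (ocd k) := by
  simp only [rootTags, List.mem_cons, List.not_mem_nil, or_false] at h
  rcases h with h | h | h | h | h | h
  · exact ⟨0, h⟩
  · exact ⟨1, h⟩
  · exact ⟨2, h⟩
  · exact ⟨3, h⟩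
  · exact ⟨4, h⟩
  · exact ⟨5, h⟩

/-- the label tags of the root hold: for any predicate `P lab z` of labels and points which holds at the true labels -/
theorem rootTags_hold {W : ℝ} {l : Fin 6 → Fin 5} {F Z : Matrix (Fin 3) (Fin 3) ℝ} {S : ℝ} {p : Fin 5 → ℝ}
    {cls : Fin 3 → Bool} {d c s : Fin 3 → ℝ} {h : ℝ} {L : (Fin 3 → ℤ) → Fin 5}
    (hk : KF W l F Z S p cls d c s h L) {n : ℕ} (hn : n ∈ rootTags l) :
    n % 2 = 0 ∧ (L (zp (n / 16))).val = n / 2 % 8 := by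
  obtain ⟨k, rfl⟩ := mem_rootTags hn
  have h8 : (l k).val < 8 := by have := (l k).isLt; omega
  refine ⟨?_, ?_⟩
  · unfold ltag; omega
  · rw [ltag_lab h8, ltag_code h8, zp_ocd, hk.oct]

open Pool.Agent.Helper80.TK (KS KR) in
/-- a smaller constant -/
theorem kr_mono {W W' : ℝ} {F G : Matrix (Fin 3) (Fin 3) ℝ} {cls : Fin 3 → Bool} {d c s : Fin 3 → ℝ} {h : ℝ}
    {L : (Fin 3 → ℤ) → Fin 5} (hk : KR W F G cls d c s h L) (hW : W' ≤ W) : KR W' F G cls d c s h L := by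
  refine ⟨{ hk.ks with wd := ?_ }, hk.lin, hk.ord, hk.clsA, hk.clsB⟩
  intro u hu
  obtain ⟨p, q, hp, hq, hpq⟩ := hk.ks.wd u hu
  exact ⟨p, q, hp, hq, by linarith⟩

theorem w577_le : (577 / 169 : ℝ) ≤ 2 + Real.sqrt 2 := by
  have h1 : (239 / 169 : ℝ) ≤ Real.sqrt 2 := by
    apply Real.le_sqrt_of_sq_le
    norm_num
  linarith

/-- **The state of the certificate**: with the constant `577 / 169` -/
theorem kr577 {l : Fin 6 → Fin 5} {F Z : Matrix (Fin 3) (Fin 3) ℝ} {S : ℝ} {p : Fin 5 → ℝ}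
    {cls : Fin 3 → Bool} {d c s : Fin 3 → ℝ} {h : ℝ} {L : (Fin 3 → ℤ) → Fin 5}
    (hk : KF (2 + Real.sqrt 2) l F Z S p cls d c s h L) :
    Pool.Agent.Helper80.TK.KR (577 / 169) F (F * Z) cls d c s h L :=
  kr_mono ⟨hk.ks, hk.lin, hk.ord, hk.clsA, hk.clsB⟩ w577_le

end Pool.Agent.Helper1.TK
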