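import Pool.Agent.Helper72.F5.Shard
import Pool.Agent.Helper1.TK.Root
import Pool.Agent.Helper1.TK.End

/-!
# The certificate from the trees
-/

set_option autoImplicit false

namespace Pool.Agent.Helper1.TK

open Matrix
open Pool.Agent.Helper20.PS (KF)
open Pool.Agent.Helper1.FIVE (classesB)
open Pool.Agent.Helper28.TP (Geo Ops OpsOK Task)
open Pool.Agent.Helper72.F5 (Cl)

/-- the six partitions -/
def cm : Fin 6 → Fin 3 → Bool :=
  ![![true, false, false], ![false, true, false], ![true, true, false], ![false, false, true], ![true, false, true],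
    ![false, true, true]]

theorem exists_cm (cls : Fin 3 → Bool) (hA : ∃ i, cls i = true) (hB : ∃ i, cls i = false) : ∃ m, cls = cm m := by
  revert hA hB
  revert cls
  decide

/-- the thirteen words -/
def wd : Fin 13 → Fin 6 → Fin 5 :=
  ![![1, 2, 0, 4, 1, 3], ![1, 2, 4, 0, 1, 3], ![1, 2, 0, 4, 3, 0], ![1, 2, 4, 0, 3, 4], ![1, 2, 3, 0, 1, 4],
    ![1, 2, 3, 4, 1, 0], ![1, 2, 3, 0, 2, 4], ![1, 2, 3, 4, 2, 0], ![1, 2, 3, 0, 0, 4], ![1, 2, 3, 4, 4, 0],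
    ![1, 0, 2, 4, 1, 3], ![1, 0, 2, 4, 3, 0], ![1, 4, 2, 0, 3, 4]]

theorem exists_wd (l : Fin 6 → Fin 5) (hl : l ∈ classesB) : ∃ w, l = wd w := by
  simp only [classesB, List.mem_cons, List.not_mem_nil, or_false] at hl
  rcases hl with h | h | h | h | h | h | h | h | h | h | h | h | h
  · exact ⟨0, h⟩
  · exact ⟨1, h⟩
  · exact ⟨2, h⟩
  · exact ⟨3, h⟩
  · exact ⟨4, h⟩
  · exact ⟨5, h⟩
  · exact ⟨6, h⟩
  · exact ⟨7, h⟩
  · exact ⟨8, h⟩
  · exact ⟨9, h⟩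
  · exact ⟨10, h⟩
  · exact ⟨11, h⟩
  · exact ⟨12, h⟩

/-- **The certificate from the trees**: `ops m` are the operations of the partition `m`, `root w` the root task of
the word `w` -/
theorem cert_of_trees {V I : Type} (ops : Fin 6 → Ops V I) (root : Fin 13 → Task V I)
    (sound : ∀ (m : Fin 6) (w : Fin 13) (F Z : Matrix (Fin 3) (Fin 3) ℝ) (S : ℝ) (p : Fin 5 → ℝ)
      (d c s : Fin 3 → ℝ) (h : ℝ) (L : (Fin 3 → ℤ) → Fin 5),
      KF (2 + Real.sqrt 2) (wd w) F Z S p (cm m) d c s h L → ∃ g : Geo V I, OpsOK g (ops m) ∧ (root w).holds g)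
    (trees : ∀ (w : Fin 13) (m : Fin 6), Cl (ops m) (root w) [])
    (l : Fin 6 → Fin 5) (hl : l ∈ classesB) :
    ¬ ∃ F Z S p cls d c s h L, KF (2 + Real.sqrt 2) l F Z S p cls d c s h L := by
  rintro ⟨F, Z, S, p, cls, d, c, s, h, L, hk⟩
  obtain ⟨w, rfl⟩ := exists_wd l hl
  obtain ⟨m, rfl⟩ := exists_cm cls hk.clsA hk.clsB
  obtain ⟨g, hg, hr⟩ := sound m w F Z S p d c s h L hk
  exact (trees w m).root g hg hr

/-- all thirteen words and six partitions -/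
theorem all78 {P : Fin 13 → Fin 6 → Prop} (h0 : ∀ m, P 0 m) (h1 : ∀ m, P 1 m) (h2 : ∀ m, P 2 m) (h3 : ∀ m, P 3 m)
    (h4 : ∀ m, P 4 m) (h5 : ∀ m, P 5 m) (h6 : ∀ m, P 6 m) (h7 : ∀ m, P 7 m) (h8 : ∀ m, P 8 m) (h9 : ∀ m, P 9 m)
    (h10 : ∀ m, P 10 m) (h11 : ∀ m, P 11 m) (h12 : ∀ m, P 12 m) : ∀ w m, P w m := by
  intro w
  fin_cases w
  · exact h0
  · exact h1
  · exact h2
  · exact h3
  · exact h4
  · exact h5
  · exact h6
  · exact h7
  · exact h8
  · exact h9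
  · exact h10
  · exact h11
  · exact h12

theorem all6 {P : Fin 6 → Prop} (h1 : P 0) (h2 : P 1) (h3 : P 2) (h4 : P 3) (h5 : P 4) (h6 : P 5) : ∀ m, P m := by
  intro m
  fin_cases m
  · exact h1
  · exact h2
  · exact h3
  · exact h4
  · exact h5
  · exact h6

end Pool.Agent.Helper1.TK
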