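import Pool.Agent.Helper1.TK.OpsD
import Pool.Agent.Helper72.F5.Mach
import Pool.Agent.Helper31.F5.OpsEq

/-!
# The certificate from the root theorems of the generated modules
-/

set_option autoImplicit false

namespace Pool.Agent.Helper1.TK

open Matrix
open Pool.Agent.Helper20.PS (KF)
open Pool.Agent.Helper1.FIVE (classesB)
open Pool.Agent.Helper28.TP (Geo Task Ops OpsOK Ivl InBox)
open Pool.Agent.Helper80.TP (Item RD)
open Pool.Agent.Helper80.KD (TagOK HS)
open Pool.Agent.Helper82.FL (V)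
open Pool.Agent.Helper72.F5 (Cl O R wc pn)

theorem root_eq (w : Fin 13) : R (wc (wd w)) = rootD (wd w) := by
  fin_cases w <;> rfl

/-- **The certificate** for any machine: `ops` the operations of a partition, `O m` the ones of the modules -/
theorem cert_of_F5 (ops : Bool → Bool → Bool → Ops V Item)
    (hO : ∀ m : Fin 6, O (m.val + 1) = ops (cm m 0) (cm m 1) (cm m 2))
    (H : RD → (Fin 3 → Bool) → (Fin 3 → ℝ) → ((Fin 3 → ℤ) → Fin 5) → Item → Prop)
    (hT : ∀ E cls d L n, TagOK (577 / 169) E.G cls d L n → H E cls d L (Item.t n))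
    (sound : ∀ (E : RD) (Z : Matrix (Fin 3) (Fin 3) ℝ) (cls : Fin 3 → Bool) (d c s : Fin 3 → ℝ) (h : ℝ)
      (L : (Fin 3 → ℤ) → Fin 5), HS (577 / 169) E cls d c s h L → (E.Fᵀ * E.F) * Z = 1 → E.G = E.F * Z →
      OpsOK (geoD E (H E cls d L)) (ops (cls 0) (cls 1) (cls 2)))
    (trees : ∀ (w : Fin 13) (m : Fin 6), Cl (O (m.val + 1)) (R (wc (wd w))) pn)
    (l : Fin 6 → Fin 5) (hl : l ∈ classesB) :
    ¬ ∃ F Z S p cls d c s h L, KF (2 + Real.sqrt 2) l F Z S p cls d c s h L := by
  refine cert_of_trees (fun m => ops (cm m 0) (cm m 1) (cm m 2)) (fun w => rootD (wd w)) ?_ ?_ l hl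
  · intro m w F Z S p d c s h L hk
    refine ⟨geoD (dataD F Z d h) (H (dataD F Z d h) (cm m) d L), ?_, ?_⟩
    · exact sound (dataD F Z d h) Z (cm m) d c s h L (hs_dataD hk) hk.inv rfl
    · exact rootD_holds hk _ rfl rfl rfl rfl (fun n hn => hT _ _ _ _ _ hn)
  · intro w m
    have h1 := trees w m
    rw [root_eq, hO] at h1
    exact h1

theorem O_opsD (m : Fin 6) : O (m.val + 1) = Pool.Agent.Helper80.KD.opsD (cm m 0) (cm m 1) (cm m 2) := by
  fin_cases m
  · exact Pool.Agent.Helper31.F5.opsF_eq true false false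
  · exact Pool.Agent.Helper31.F5.opsF_eq false true false
  · exact Pool.Agent.Helper31.F5.opsF_eq true true false
  · exact Pool.Agent.Helper31.F5.opsF_eq false false true
  · exact Pool.Agent.Helper31.F5.opsF_eq true false true
  · exact Pool.Agent.Helper31.F5.opsF_eq false true true

end Pool.Agent.Helper1.TK
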