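import Pool.Agent.Helper1.TK.Snd0
import Pool.Agent.Helper21.KD.LfC

/-!
# The leaf is correct
-/

set_option autoImplicit false

namespace Pool.Agent.Helper1.TK

open Matrix
open Pool.Agent.Helper28.TP (Geo Task nth)
open Pool.Agent.Helper80.TP (Item RD)
open Pool.Agent.Helper80.KD (HS okI)
open Pool.Agent.Helper82.FL (V AtV formV)
open Pool.Agent.Helper21.KD (Ctx leafD_false)

theorem at_eq (g : Geo V Item) (hf : g.form = formV) (cs : List V) (k : ℕ) : g.At cs k = AtV cs k := by
  unfold Geo.At AtV
  induction cs generalizing k with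
  | nil => cases k <;> rfl
  | cons v cs ih =>
    cases k with
    | zero =>
      simp [nth, hf, formV]
    | succ k => simpa [nth] using ih k

theorem leafOK : LeafOK := by
  intro E Z cls d c s h L H hZ hG t r ht hr
  obtain ⟨h1, ⟨lam, h2, h3⟩, h4, h5⟩ := ht
  refine leafD_false (W := 577 / 169) (E := E) (cls := cls) (d := d) (c := c) (s := s) (h := h) (lab := L) (Z := Z)
    (cs := t.cs) (lam := lam) (env := t.env) ?_ h5 hr
  refine ⟨H, by norm_num, hZ, hG, ?_, h1, h2, ?_, h4⟩
  · rw [H.om]; norm_num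
  · have h6 : (geoD E (okI (577 / 169) E cls d L)).Q = E.Fᵀ * E.F := rfl
    rw [h6] at h3
    rw [h3]
    exact Finset.sum_congr rfl fun k _ => by rw [at_eq _ rfl]

end Pool.Agent.Helper1.TK
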