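import Pool.Agent.Helper1.TK.RootD
import Pool.Agent.Helper1.TK.Assemble
import Pool.Agent.Helper80.KD.RuleT
import Pool.Agent.Helper82.FL.Head

/-!
# The certificate from the soundness of the rule and of the leaf
-/

set_option autoImplicit false

namespace Pool.Agent.Helper1.TK

open Matrix
open Pool.Agent.Helper20.PS (KF)
open Pool.Agent.Helper1.FIVE (classesB)
open Pool.Agent.Helper28.TP (Geo Task Ops OpsOK Ivl InBox)
open Pool.Agent.Helper80.TP (Item RD eqItem eqItem_eq)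
open Pool.Agent.Helper80.KD (TagOK HS IsD opsD)
open Pool.Agent.Helper82.FL (V formV okV eqV_eq midV_spec)
open Pool.Agent.Helper72.F5 (Cl)

/-- the real data of a state -/
noncomputable def dataD (F Z : Matrix (Fin 3) (Fin 3) ℝ) (d : Fin 3 → ℝ) (h : ℝ) : RD :=
  ⟨F, F * Z, par d h, 0, 2 * (577 / 169), le_rfl⟩

/-- the state and its data -/
theorem hs_dataD {l : Fin 6 → Fin 5} {F Z : Matrix (Fin 3) (Fin 3) ℝ} {S : ℝ} {p : Fin 5 → ℝ}
    {cls : Fin 3 → Bool} {d c s : Fin 3 → ℝ} {h : ℝ} {L : (Fin 3 → ℤ) → Fin 5}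
    (hk : KF (2 + Real.sqrt 2) l F Z S p cls d c s h L) : HS (577 / 169) (dataD F Z d h) cls d c s h L :=
  ⟨kr577 hk, rfl, rfl, rfl, rfl, rfl⟩

/-- the geometry of a state -/
noncomputable def geoD (E : RD) (holds : Item → Prop) : Geo V Item where
  Q := E.Fᵀ * E.F
  c := E.c
  ok := okV
  form := formV
  holds := holds

/-- the operations are correct as soon as the rule and the leaf are -/
theorem opsOK_of {g : Geo V Item} (ho : g.ok = okV) (hf : g.form = formV) (b1 b2 b3 : Bool)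
    (leaf : ∀ t r, t.holds g → (opsD b1 b2 b3).leaf t r = true → False)
    (rule : ∀ env box, (∀ i ∈ env, g.holds i) → InBox g.c box → ∀ id a,
      (opsD b1 b2 b3).rule env box id = some a → ∃ l ∈ a, ∀ i ∈ l, g.holds i) : OpsOK g (opsD b1 b2 b3) where
  eq := eqV_eq
  eqI := eqItem_eq
  mid := by
    intro v w m _ _ h
    have h1 := midV_spec v w m h
    rw [ho, hf]
    exact h1
  leaf := leaf
  rule := rule

/-- **The certificate** from the correctness of the machine and the trees -/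
theorem cert_of_sound (H : RD → (Fin 3 → Bool) → (Fin 3 → ℝ) → ((Fin 3 → ℤ) → Fin 5) → Item → Prop)
    (hT : ∀ E cls d L n, TagOK (577 / 169) E.G cls d L n → H E cls d L (Item.t n))
    (sound : ∀ (E : RD) (Z : Matrix (Fin 3) (Fin 3) ℝ) (cls : Fin 3 → Bool) (d c s : Fin 3 → ℝ) (h : ℝ)
      (L : (Fin 3 → ℤ) → Fin 5), HS (577 / 169) E cls d c s h L → (E.Fᵀ * E.F) * Z = 1 → E.G = E.F * Z →
      OpsOK (geoD E (H E cls d L)) (opsD (cls 0) (cls 1) (cls 2)))
    (trees : ∀ (w : Fin 13) (m : Fin 6), Cl (opsD (cm m 0) (cm m 1) (cm m 2)) (rootD (wd w)) [])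
    (l : Fin 6 → Fin 5) (hl : l ∈ classesB) :
    ¬ ∃ F Z S p cls d c s h L, KF (2 + Real.sqrt 2) l F Z S p cls d c s h L := by
  refine cert_of_trees (fun m => opsD (cm m 0) (cm m 1) (cm m 2)) (fun w => rootD (wd w)) ?_ trees l hl
  intro m w F Z S p d c s h L hk
  refine ⟨geoD (dataD F Z d h) (H (dataD F Z d h) (cm m) d L), ?_, ?_⟩
  · exact sound (dataD F Z d h) Z (cm m) d c s h L (hs_dataD hk) hk.inv rfl
  · exact rootD_holds hk _ rfl rfl rfl rfl (fun n hn => hT _ _ _ _ _ hn)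

end Pool.Agent.Helper1.TK
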