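import Pool.Agent.Helper1.TK.Root
import Pool.Agent.Helper1.TK.End
import Pool.Agent.Helper80.KD.Mach

/-!
# The root task of the machine
-/

set_option autoImplicit false

namespace Pool.Agent.Helper1.TK

open Matrix
open Pool.Agent.Helper20.PS (KF)
open Pool.Agent.Helper1.FIVE (oc)
open Pool.Agent.Helper28.TP (Geo Task Ops Ivl)
open Pool.Agent.Helper80.TP (Item vI)
open Pool.Agent.Helper80.KD (TagOK pt g0 g1 g2)
open Pool.Agent.Helper82.FL (V formV okV)

/-- the root task of a word -/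
def rootD (l : Fin 6 → Fin 5) : Task V Item :=
  ⟨wallC, (rootTags l).map Item.t, box0⟩

theorem pt_ocd (k : Fin 6) : pt (ocd k) = oc k := by
  fin_cases k <;> decide

/-- the tags of the root hold -/
theorem tagOK_root {l : Fin 6 → Fin 5} {F Z : Matrix (Fin 3) (Fin 3) ℝ} {S W : ℝ} {p : Fin 5 → ℝ}
    {cls : Fin 3 → Bool} {d c s : Fin 3 → ℝ} {h : ℝ} {L : (Fin 3 → ℤ) → Fin 5}
    (hk : KF W l F Z S p cls d c s h L) (W' : ℝ) (G : Matrix (Fin 3) (Fin 3) ℝ) {n : ℕ} (hn : n ∈ rootTags l) :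
    TagOK W' G cls d L n := by
  obtain ⟨k, rfl⟩ := mem_rootTags hn
  have h8 : (l k).val < 8 := by have := (l k).isLt; omega
  refine ⟨fun _ => ?_, fun h1 => ?_⟩
  · rw [ltag_lab h8, ltag_code h8, pt_ocd, hk.oct]
  · exfalso
    unfold ltag at h1
    omega

/-- the root task holds -/
theorem rootD_holds {l : Fin 6 → Fin 5} {F Z : Matrix (Fin 3) (Fin 3) ℝ} {S W : ℝ} {p : Fin 5 → ℝ}
    {cls : Fin 3 → Bool} {d c s : Fin 3 → ℝ} {h : ℝ} {L : (Fin 3 → ℤ) → Fin 5}
    (hk : KF W l F Z S p cls d c s h L) {W' : ℝ} {G : Matrix (Fin 3) (Fin 3) ℝ} (g : Geo V Item)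
    (hf : g.form = formV) (ho : g.ok = okV) (hQ : g.Q = Fᵀ * F) (hc : g.c = par d h)
    (ht : ∀ n, TagOK W' G cls d L n → g.holds (Item.t n)) : (rootD l).holds g := by
  refine holds_root g (fun v hv => by rw [ho]; exact ok_wallC v hv) (fun v _ => by rw [hf]) hk hQ hc _ ?_
  intro i hi
  obtain ⟨n, hn, rfl⟩ := List.mem_map.1 hi
  exact ht n (tagOK_root hk W' G hn)

end Pool.Agent.Helper1.TK
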