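import Pool.Agent.Helper1.TK.LeafOK

/-!
# The certificate from the trees
-/

set_option autoImplicit false

namespace Pool.Agent.Helper1.TK

open Matrix
open Pool.Agent.Helper20.PS (KF)
open Pool.Agent.Helper1.FIVE (classesB)
open Pool.Agent.Helper80.KD (okI opsD)
open Pool.Agent.Helper72.F5 (Cl O R wc pn)

/-- **The certificate** from the root theorems -/
theorem cert_snd (trees : ∀ (w : Fin 13) (m : Fin 6), Cl (O (m.val + 1)) (R (wc (wd w))) pn)
    (l : Fin 6 → Fin 5) (hl : l ∈ classesB) :
    ¬ ∃ F Z S p cls d c s h L, KF (2 + Real.sqrt 2) l F Z S p cls d c s h L :=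
  cert_of_F5 opsD O_opsD (okI (577 / 169)) okI_t (opsD_ok leafOK) trees l hl

end Pool.Agent.Helper1.TK
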