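import Pool.Agent.Helper1.TK.F5
import Pool.Agent.Helper80.KD.Tag

/-!
# The certificate from the soundness of the leaf
-/

set_option autoImplicit false

namespace Pool.Agent.Helper1.TK

open Matrix
open Pool.Agent.Helper20.PS (KF)
open Pool.Agent.Helper1.FIVE (classesB)
open Pool.Agent.Helper28.TP (Geo Task Ops OpsOK Ivl InBox)
open Pool.Agent.Helper80.TP (Item RD)
open Pool.Agent.Helper80.KD (TagOK HS okI opsD leafD ruleK_ok)
open Pool.Agent.Helper82.FL (V)
open Pool.Agent.Helper72.F5 (Cl O R wc pn)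

/-- the leaf is correct in every state -/
def LeafOK : Prop :=
  ∀ (E : RD) (Z : Matrix (Fin 3) (Fin 3) ℝ) (cls : Fin 3 → Bool) (d c s : Fin 3 → ℝ) (h : ℝ)
    (L : (Fin 3 → ℤ) → Fin 5), HS (577 / 169) E cls d c s h L → (E.Fᵀ * E.F) * Z = 1 → E.G = E.F * Z →
    ∀ (t : Task V Item) (r : ℕ), t.holds (geoD E (okI (577 / 169) E cls d L)) →
      leafD (Pool.Agent.Helper21.TK.vt (cls 0) (cls 1) (cls 2)) t.cs t.env t.box r = true → False

/-- the machine is correct -/
theorem opsD_ok (hl : LeafOK) (E : RD) (Z : Matrix (Fin 3) (Fin 3) ℝ) (cls : Fin 3 → Bool) (d c s : Fin 3 → ℝ)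
    (h : ℝ) (L : (Fin 3 → ℤ) → Fin 5) (H : HS (577 / 169) E cls d c s h L) (hZ : (E.Fᵀ * E.F) * Z = 1)
    (hG : E.G = E.F * Z) :
    OpsOK (geoD E (okI (577 / 169) E cls d L)) (opsD (cls 0) (cls 1) (cls 2)) := by
  refine opsOK_of rfl rfl _ _ _ ?_ ?_
  · intro t r ht hr
    exact hl E Z cls d c s h L H hZ hG t r ht hr
  · intro env box henv hbox id a ha
    exact ruleK_ok H (by norm_num) henv hbox ha

theorem okI_t (E : RD) (cls : Fin 3 → Bool) (d : Fin 3 → ℝ) (L : (Fin 3 → ℤ) → Fin 5) (n : ℕ)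
    (h : TagOK (577 / 169) E.G cls d L n) : okI (577 / 169) E cls d L (Item.t n) := h

end Pool.Agent.Helper1.TK
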