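import Pool.Agent.Helper24.FIVE.Asym
import Pool.Agent.Helper20.PS.KState

/-!
# The theorem on polytopes with at most five facets, from the certificate in the kappa form
-/

set_option autoImplicit false

namespace Pool.Agent.Helper1.TK

open Matrix
open Pool.Agent.Helper12.LW (LFree toR)
open Pool.Agent.Helper84.FL (Superbase WidthLe)
open Pool.Agent.Helper38.TET (OChain)
open Pool.Agent.Helper20.FIVE (Half)
open Pool.Agent.Helper20.PS (Two exists_hasK KF)
open Pool.Agent.Helper1.FIVE (classesB)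
open Pool.Agent.Helper24.FIVE (exists_exact asym)

/-- **Polytopes with at most five facets**, from the certificate of the thirteen classes in the kappa form: for every
word and every partition of the three facets into two nonempty classes there is no state. The hypothesis `thmA` is
the theorem on the obtuse chains of four facets (`flatA_of core`). -/
theorem five_kcert_of
    (thmA : ∀ (K : Set (Fin 3 → ℝ)) (f P : Fin 4 → Fin 3 → ℤ) (g : Fin 4 → Fin 3 → ℝ), LFree K →
      OChain K f P g → (∀ m : Fin 3 → ℝ, ∃ a : Fin 4 → ℝ, ∑ j, a j • g j = m) → WidthLe K (2 + Real.sqrt 2))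
    (cert : ∀ l ∈ classesB, ∀ cls : Fin 3 → Bool, (∃ i, cls i = true) → (∃ i, cls i = false) →
      ∀ (F Z : Matrix (Fin 3) (Fin 3) ℝ) (S : ℝ) (p : Fin 5 → ℝ) (d c s : Fin 3 → ℝ) (h : ℝ)
        (L : (Fin 3 → ℤ) → Fin 5), ¬ KF (2 + Real.sqrt 2) l F Z S p cls d c s h L)
    (w : Fin 5 → Fin 3 → ℝ) (b : Fin 5 → ℝ)
    (hb : Bornology.IsBounded {x : Fin 3 → ℝ | ∀ i, ∑ j, w i j * x j ≤ b i})
    (hi : (interior {x : Fin 3 → ℝ | ∀ i, ∑ j, w i j * x j ≤ b i}).Nonempty)
    (hz : ∀ z : Fin 3 → ℤ, (fun j => (z j : ℝ)) ∉ interior {x : Fin 3 → ℝ | ∀ i, ∑ j, w i j * x j ≤ b i}) :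
    ∃ y : Fin 3 → ℤ, y ≠ 0 ∧ ∀ x ∈ {x : Fin 3 → ℝ | ∀ i, ∑ j, w i j * x j ≤ b i},
      ∀ x' ∈ {x : Fin 3 → ℝ | ∀ i, ∑ j, w i j * x j ≤ b i},
        ∑ i, (x i - x' i) * (y i : ℝ) ≤ 2 + Real.sqrt 2 := by
  have hE : {x : Fin 3 → ℝ | ∀ i, ∑ j, w i j * x j ≤ b i} = Half w b := rfl
  rw [hE] at hb hi hz ⊢
  have hcl : IsClosed (Half w b) := by
    have h1 : Half w b = ⋂ i, {x : Fin 3 → ℝ | w i ⬝ᵥ x ≤ b i} := by
      ext x
      simp [Half]
    rw [h1]
    refine isClosed_iInter fun i => isClosed_le ?_ continuous_const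
    unfold dotProduct
    fun_prop
  have hcomp : IsCompact (Half w b) := Metric.isCompact_of_isClosed_isBounded hcl hb
  by_contra hcon
  obtain ⟨g, b', mu, hT⟩ := exists_exact w b hcomp hi hz (2 + Real.sqrt 2) (by positivity) hcon
  obtain ⟨l, hl, hH⟩ := exists_hasK thmA hT (asym hT)
  obtain ⟨F, Z, S, p, cls, d, c, s, h, L, hK⟩ := hH.kf
  exact cert l hl cls hK.clsA hK.clsB F Z S p d c s h L hK

/-- the six partitions -/
theorem cls_cases (cls : Fin 3 → Bool) (hA : ∃ i, cls i = true) (hB : ∃ i, cls i = false) :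
    cls = ![true, false, false] ∨ cls = ![false, true, false] ∨ cls = ![false, false, true] ∨
      cls = ![true, true, false] ∨ cls = ![true, false, true] ∨ cls = ![false, true, true] := by
  revert hA hB
  revert cls
  decide

/-- the same with the six partitions in a list -/
def masks : List (Fin 3 → Bool) :=
  [![true, false, false], ![false, true, false], ![true, true, false], ![false, false, true], ![true, false, true],
    ![false, true, true]]

theorem mem_masks (cls : Fin 3 → Bool) (hA : ∃ i, cls i = true) (hB : ∃ i, cls i = false) : cls ∈ masks := by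
  rcases cls_cases cls hA hB with h | h | h | h | h | h <;> rw [h] <;> simp [masks]

end Pool.Agent.Helper1.TK
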